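import Pool.Agent.V8H40.SJ.Main
import Pool.Agent.V8H40.SJ.Univ

/-!
# Every c.e. set which is not strongly jump traceable splits into two SJT-incomparable c.e. sets

This answers the question positively: the two halves of the splitting are computably enumerable,
Turing reducible to the given set, and incomparable for SJT reducibility.
-/

set_option autoImplicit false

namespace Pool.Agent.Results.MP_377195_lc.IncomparableHalves

open Pool.Agent.V8H40.SJ

theorem result :
    (∀ X : Set ℕ, Nat.RecursiveIn {(chi X : ℕ →. ℕ)} (J X) ∧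
      ∀ f : ℕ →. ℕ, Nat.RecursiveIn {(chi X : ℕ →. ℕ)} f →
        ∃ p : ℕ → ℕ, Computable p ∧ ∀ n, J X (p n) = f n) ∧
    ∀ E : Set ℕ, CE E → ¬ SJT E ∅ →
      ∃ A B : Set ℕ, CE A ∧ CE B ∧ A ∪ B = E ∧ Disjoint A B ∧ TLe A E ∧ TLe B E ∧
        ¬ SJT A B ∧ ¬ SJT B A :=
  ⟨fun X => ⟨J_recursiveIn X, J_universal X⟩, fun _ hE hns => splitting hE hns⟩

end Pool.Agent.Results.MP_377195_lc.IncomparableHalves
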